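import Pool.Agent.H190Z.Smp4

/-!
# The subpower membership problem of a finite completely regular semigroup is in NP

Every element of a subsemigroup of `S ^ n` with `k` generators has a straight-line program of
length polynomial in `n + k`: induction on the depth of the two-sided classes of `S`, with cheap
representatives of right and left classes and the cube doubling argument of Babai and Szemeredi in
the maximal subgroups.
-/

set_option autoImplicit false

namespace Pool.Agent.Results.MP_c4ab36_lc.ASmpInNP

open Pool.Agent.NPC Pool.Agent.H190Z.SmpDefs

theorem result (S : Type) [Semigroup S] [Finite S] (hS : CompletelyRegular S) (c : S → ℕ)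
    (hc : Function.Injective c) : InNPP (SMP S c) :=
  Pool.Agent.H190Z.Smp.smp_np S hS c hc

end Pool.Agent.Results.MP_c4ab36_lc.ASmpInNP
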